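import Pool.Agent.helper11.VN.Spec3b
import Pool.Agent.helper74.VQ.SpecC

/-!
# Project VN (MP_07c750_an, quantum unique ergodicity for almost every negatively curved surface): DETECTION WITH FINER CLASSES, rows `vn:X`

The goal is `UND_stmt`: the total volume of the undetected chains. In VQ the number of undetected `γ` was bounded (CNTV) and multiplied by the volume of all chains (I5). Here rigidity (`RIGN`) holds only for chains which stay close, so the undetected chains are divided into classes of chains which stay close (`CLSN`): in every class the volume is at most `(C R^(-2 + C z2))^(N-1)`.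

RULES. Row `vn:XXX`: file `Pool/Agent/<seat>/VN/XXX.lean`, `import Pool.Agent.helper99.VN.SpecU`, `set_option autoImplicit false`, namespace `Pool.Agent.VN`, auxiliary lemmas prefixed `XXX_`, theorem `XXX_proof (h..) : XXX_stmt` (rows listed in `from` may be used as hypotheses `(h : YYY_stmt)`;
rows of VQ as `(h : VQ.YYY_stmt)`, of RPQ as `(h : RPQ.YYY_stmt)`; more rows may be added, unused ones dropped). No `convert`, `congr!`, `native_decide`, no double quotes, no `private`. Lemmas of the files `Pool/Agent/*/VQ/XXX.lean` may be imported (for example `import Pool.Agent.helper61.VQ.CNV`).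
`k` is the constant of `PotN` (`0 < k ≤ 1/16` by `OKN.pot.kpos`), so `|0| ≤ k`.
-/

open scoped MatrixGroups ContDiff Topology UpperHalfPlane ComplexConjugate ENNReal
open UpperHalfPlane MeasureTheory Filter Set

namespace Pool.Agent.VN

open Pool.Agent.RS Pool.Agent.VQ
open Pool.Agent.RPQ (Net Cl)

noncomputable section

/-! ## Pure rows -/

/-- **Row BOXN** (boxes; short; pure). (1), (2), (5) are trivial. (3) `b = σ (1 + β)`, `c = σ' (1 + β')` with signs `σ, σ'`, the entries of `ββ'` are `< 2 a a'`. (4) `b⁻¹ = !![b11, -b01; -b10, b00]`; (6) conjugation by `kM (i π/2)` (four cases, or induction on `i` with `kM (π/2) = !![0, 1; -1, 0]` up to the convention) permutes the entries of `b ∓ 1` up to signs.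
(7) `VQ` lemma `CNV_nr` in helper61/VQ/CNV.lean for `b` or `-b` (`(-b) • I = b • I`). (8) `g • I`, `h • I`: `dist (g•I) (h•I) = dist ((h⁻¹ g) • I) I`. -/
def BOXN_stmt : Prop := (∀ (a : ℝ) (b : SL(2, ℝ)), EN.nr a b → b ∈ Bo a) ∧ (∀ (a a' : ℝ) (b : SL(2, ℝ)), a ≤ a' → b ∈ Bo a → b ∈ Bo a') ∧
  (∀ (a a' : ℝ) (b c : SL(2, ℝ)), 0 < a → 0 < a' → b ∈ Bo a → c ∈ Bo a' → b * c ∈ Bo (a + a' + 2 * a * a')) ∧ (∀ (a : ℝ) (b : SL(2, ℝ)), b ∈ Bo a → b⁻¹ ∈ Bo a) ∧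
  (∀ (a : ℝ), 0 < a → (1 : SL(2, ℝ)) ∈ Bo a) ∧ (∀ (a : ℝ) (b : SL(2, ℝ)) (i : ℕ), b ∈ Bo a → (kM (i * (Real.pi / 2)))⁻¹ * b * kM (i * (Real.pi / 2)) ∈ Bo a) ∧
  (∀ b : SL(2, ℝ), b ∈ Bo (1 / 8) → dist (b • I : ℍ) I ≤ 1) ∧ ∀ g h : SL(2, ℝ), h⁻¹ * g ∈ Bo (1 / 8) → dist (g • I : ℍ) (h • I) ≤ 1

/-- **Row PTHN** (counting paths; short-medium; pure). Paths of states `a_0 ∈ F0`, `a_(i+1) ∈ F a_i`, `i + 1 < S`, and an end in `G a_(S-1)`: they form a finite set with at most `q^S n` elements (lists, induction; compare `CNTV_chain` in helper54/VQ/CNTV.lean; `Finset.card_biUnion_le_card_mul`). `cl x` = the number of the path `(st x 0, .., st x (S-1), en x)` in an enumeration of this set (`Finset.equivFin`), `0` for `x ∉ X`. -/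
def PTHN_stmt : Prop := ∀ (α β X : Type) (q n S : ℕ) (F0 : Finset α) (F : α → Finset α) (G : α → Finset β) (Xs : Set X) (st : X → ℕ → α) (en : X → β), 1 ≤ S → F0.card ≤ q → (∀ a, (F a).card ≤ q) → (∀ a, (G a).card ≤ n) →
  (∀ x ∈ Xs, st x 0 ∈ F0 ∧ (∀ i, i + 1 < S → st x (i + 1) ∈ F (st x i)) ∧ en x ∈ G (st x (S - 1))) →
    ∃ cl : X → ℕ, ∀ x ∈ Xs, cl x < q ^ S * n ∧ ∀ x' ∈ Xs, cl x' = cl x → en x' = en x ∧ ∀ i < S, st x' i = st x i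

/-- **Row SUMN** (short; pure). `μ (A i) ≤ ∑ c < M, μ {v ∈ A i | cl i v = c}` (`measure_biUnion_finset_le`); exchange the sums; for fixed `c` at most one `i` contributes (`tsum_eq_single`, or the sum is `0`). -/
def SUMN_stmt : Prop := ∀ (V ι : Type) [MeasurableSpace V] (μ : Measure V) (M : ℕ) (vol : ENNReal) (A : ι → Set V) (cl : ι → V → ℕ), (∀ i, ∀ v ∈ A i, cl i v < M) →
  (∀ i i' v v', v ∈ A i → v' ∈ A i' → cl i v = cl i' v' → i = i') → (∀ i, ∀ c < M, μ {v | v ∈ A i ∧ cl i v = c} ≤ vol) → ∑' i, μ (A i) ≤ M * vol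

/-- **Row VBXN** (volume of a product of boxes; short-medium; from VQ: VBO; RS: GLI or GMG for the left invariance of `mG`, see how helper26/VQ/VNV.lean uses it). The set is `Set.pi univ` of the sets `{q | Nb r (w (i+1)) q}`, `Measure.pi_pi`; one factor is `≤ mG (Bo r) · 2 r ≤ 2 C r⁴`
(`{g | p.1⁻¹ g ∈ Bo r}` is a left translate of `Bo r`; `volume {E | |p.2 - E| < r} = 2 r`; `Measure.restrict_le_self`, `Measure.prod_prod`). -/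
def VBXN_stmt : Prop := ∃ C : ℝ, 1 ≤ C ∧ ∀ (R r : ℝ) (n : ℕ) (w : ℕ → SL(2, ℝ) × ℝ), 0 < r → r ≤ 1 / 4 → mZ (mW R) n {v | ∀ i : Fin n, Nb r (w (i + 1)) (v i)} ≤ ENNReal.ofReal ((C * r ^ 4) ^ n)

/-! ## The flow -/

/-- **Row PIVN** (detection; medium-long; ADAPTATION of helper75/VQ/PIV.lean; from FSTN, FLBN, RPQ.TPT, RPQ.INJ, RS: GLC). FSTN is in helper11/VN/Spec3b.lean. Let `c` be the constant of FSTN, so `1/c ≤ rho ≤ c`. The only changes: the spacing of the sample times is `b ρ`, `b = 4 c`, in the place of `4 ρ`; `U ≥ k`.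
`fr = frZ D t w`, `fr' = frZ D t w'`; in every interval `[it, (i+1)t)` they are orbits of `fl` (additivity FLBN). `s' ∈ [it, (i+1)t)`; `[a, a+ρ1]` in this interval contains `s'` (`a = max (it) (s' - ρ1)`). `s'_j = a + ρ/4 + b ρ j`, `j < m`, `m ≥ ρ1/(2 b ρ)`. Choose `i_j, γ_j` with `dist (fr'(s'_j)•I) (γ_j p_(i_j)) ≤ ρ/4` (`Net.cover`).
The `i_j` are different: the distance of `fr'(s'_j)•I` and `fr'(s'_j')•I` is at least `(1/c - C ρ1) b ρ |j - j'| ≥ 2 ρ` and at most `2 c ρ1` (so INJ gives `γ_j = γ_j'` if `i_j = i_j'`, and then the distance would be `≤ ρ/2`). `χ_(i_j) = 1` at `fr'(s)•I` for `|s - s'_j| ≤ ρ/(16 c)`, so `|thN D (χ_(i_j)) K t N w'| ≥ |K|/2 · k · ρ/(8 c) ≥ 3` if `C ≥ 48 c/k`.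
By `UndV`, for all but `nc` of the `j`, `thN D (χ_(i_j)) K t N w ≠ 0`, so there is `s_j ∈ [0, Nt)` with `χ_(i_j)(fr(s_j)•I) ≠ 0`, so `dist (fr'(s'_j)•I) (γ'_j fr(s_j)•I) ≤ 5ρ/4`. Cut `[0, Nt)` into at most `C (N t + 1)` intervals of length `≤ ρ10`, each inside one `[it, (i+1)t)`; pigeonhole: one contains `s_j` for more than `1/ρ1 + 1` indices, so there are `j < j'` with `j' - j ≥ 1/ρ1`
(`m - nc ≥ ρ1/(2bρ) - 1 - nc ≥ C (N t + 1)/ρ1` for a large constant `C`). `γ'_j = γ'_j' = γ` by INJ. TPT with `h = fr'(s'_j)⁻¹ γ fr(s_j)`, `D = rho' (s'_j' - s'_j) ∈ [4ρ/ρ1, c ρ1]`, `D' = rho (s_j' - s_j)`, `δ = C (ρ + D²)`: by FSTN the positions at `s'_j'`, `s_j'` are those of `aM D`, `aM D'` up to `C (s'_j' - s'_j)² ≤ C c² D²`, `C c² D'²`, and `|D'| ≤ 6 D`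
(as `|D'|/2 ≤ dist ≤ D + 5ρ/2 + C D²` if `ρ10` is small, and `ρ ≤ ρ1 D/4`): so `C δ/D ≤ C' ρ1`, `Cl (C' ρ1)`. Move from `s'_j` to `s'` (`|s' - s'_j| ≤ ρ1`; FSTN: `EN.nr (C ρ1)`). -/
def PIVN_stmt : Prop := ∀ (Γ : Subgroup SL(2, ℝ)) (κ : ℝ → ℝ) (k : ℝ) (B : ℕ → ℝ), QU.SurfaceGroup Γ → 0 < k → ∃ C ρ10 : ℝ, 1 ≤ C ∧ 0 < ρ10 ∧ ρ10 ≤ 1 ∧ ∀ (C0 ρ ρ1 K t : ℝ) (J : ℕ) (p : Fin J → ℍ) (χ : Fin J → ℍ → ℝ) (N nc : ℕ) (D : Dyn) (w w' : ℕ → SL(2, ℝ) × ℝ),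
  OKN Γ k B D → 0 < ρ → 0 < ρ1 → ρ1 ≤ ρ10 → 1 ≤ t → C / ρ ≤ |K| → nc + C * (N * t + 1) / ρ1 ≤ ρ1 / (C * ρ) → Net Γ κ ρ C0 J p χ → (∀ j < N, |(w j).2| ≤ k ∧ |(w' j).2| ≤ k) → UndV D χ K t N nc w w' →
    ∀ s' : ℝ, 0 ≤ s' → s' < N * t → ∃ (s : ℝ) (γ : Γ), 0 ≤ s ∧ s < N * t ∧ Cl (C * ρ1) (frZ D t w' s') ((γ : SL(2, ℝ)) * frZ D t w s)

/-- **Row CNVN** (staying close, frames; medium; ADAPTATION of helper61/VQ/CNV.lean, where `CNV_chain` is already the statement for the frames; from FLBN, FLGN, FSTN, BOXN). Let `C1`, `c0` be the constants of FLGN, `C = C1 + C(FSTN)`. Everything is up to the sign, that is with `Bo`; `frZ` is at most one jump between `s` and `s + v`.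
(1) FLGN for `E = E' = 0`, `η = C2 ρ1`: `EN.nr (C1 C2 ρ1 e^(C1|s|))`, and `ρ1 e^(C1|s|) ≤ ρ1^(1/2)`. (2) `fl 0 v y * k0 = fl 0 (±v) (y * k0)` (`CNV_rev`), `fl 0 s` and `fl 0 (±v)` commute (additivity), then FSTN at the point `fl 0 s (y * k0)` and the inverse (BOXN).
(3) `CNV_chain`: `EN.nr (3 C1² ρ1 e^(C1 v))` between `fl 0 v (frZ s)` and `frZ (s + v) * kM (i' π/2)`, `i' = 0` or `2` (a sign); if `x = 0`: done (BOXN (6) for the factor `kM (i π/2)`, `ρ1 e^(C1 v) ≤ ρ1^(1/2)`); if `v ≤ 1`: then FLGN once more for the time `x` (as `CNV_fin`): `≤ C ρ1 e^(C1) e^(C1 |x|) ≤ C3 ρ1^(1/2)`; if `v = 0` both are equal.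
`fl` commutes with `-1 = kM π` (`CNV_rev` for `i = 2`). `ρ10` is so small that the conditions `η e^(C1|t|) ≤ c0` hold and `ρ10 ≤ k`. -/
def CNVN_stmt : Prop := ∀ (Γ : Subgroup SL(2, ℝ)) (k : ℝ) (B : ℕ → ℝ), QU.SurfaceGroup Γ → 0 < k → ∃ C : ℝ, 1 ≤ C ∧ ∀ C2 : ℝ, 1 ≤ C2 → ∃ C3 ρ10 : ℝ, 1 ≤ C3 ∧ 0 < ρ10 ∧ ρ10 ≤ 1 / 8 ∧ ρ10 ≤ k ∧ ∀ (D : Dyn) (ρ1 : ℝ), OKN Γ k B D → 0 < ρ1 → ρ1 ≤ ρ10 →
  (∀ (x y : SL(2, ℝ)) (s : ℝ) (i : ℕ), Real.exp (C * |s|) ≤ ρ1 ^ (-(1 / 2) : ℝ) → EN.nr (C2 * ρ1) (x⁻¹ * y * kM (i * (Real.pi / 2))) → (D.fl 0 s x)⁻¹ * D.fl 0 s (y * kM (i * (Real.pi / 2))) ∈ Bo (C3 * ρ1 ^ (1 / 2 : ℝ))) ∧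
  (∀ (y : SL(2, ℝ)) (s v u : ℝ) (i : ℕ), |v| ≤ u → 0 < u → u ≤ 1 → (D.fl 0 s (D.fl 0 v y * kM (i * (Real.pi / 2))))⁻¹ * D.fl 0 s (y * kM (i * (Real.pi / 2))) ∈ Bo (C * u)) ∧
  ∀ (t r : ℝ) (N : ℕ) (w : ℕ → SL(2, ℝ) × ℝ), 1 ≤ t → 0 < r → r ≤ ρ1 → JP D t r N w → ∀ (s v x : ℝ) (i : ℕ), 0 ≤ s → 0 ≤ v → v ≤ t → s + v ≤ N * t → Real.exp (C * v) ≤ ρ1 ^ (-(1 / 2) : ℝ) → Real.exp (C * |x|) ≤ ρ1 ^ (-(1 / 2) : ℝ) → v = 0 ∨ x = 0 ∨ v ≤ 1 →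
    (D.fl 0 x (frZ D t w (s + v) * kM (i * (Real.pi / 2))))⁻¹ * D.fl 0 x (D.fl 0 v (frZ D t w s) * kM (i * (Real.pi / 2))) ∈ Bo (C3 * ρ1 ^ (1 / 2 : ℝ))

/-! ## States and classes -/

/-- the state `a = (γ, n, m)` of the chain `w'` at the time `i Λ`: the frame of `w'` is close to `γ fr(s) kM (m π/2)`, `n = ⌊s/e1⌋` -/
def Stt (D : Dyn) {Γ : Subgroup SL(2, ℝ)} (t ε e1 Λ : ℝ) (N : ℕ) (w w' : ℕ → SL(2, ℝ) × ℝ) (i : ℕ) (a : Γ × ℕ × ℕ) : Prop :=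
  ∃ s : ℝ, 0 ≤ s ∧ s < N * t ∧ a.2.1 = ⌊s / e1⌋₊ ∧ a.2.2 < 4 ∧ EN.nr ε ((frZ D t w' (i * Λ))⁻¹ * ((a.1 : SL(2, ℝ)) * frZ D t w s) * kM (a.2.2 * (Real.pi / 2)))

/-- **Row TRSN** (transitions; short-medium; ADAPTATION of `CNTV_B` in helper54/VQ/CNTV.lean; from CNVN, FLBN, BOXN). `C` = the constant of CNVN (times 8). `u = s - n e1 ∈ [0, e1)` for the `s` of `Stt`. Four steps, each of distance `≤ 1`: `fr'(iΛ + v)` and `fl 0 v (fr'(iΛ))` (CNVN (3), `x = 0`, `i = 0`); `fl 0 v (fr'(iΛ))` and `fl 0 v (γ fr(s) k)` (CNVN (1), `|v| ≤ Λ`);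
`fl 0 v (γ fr(n e1 + u) k)` and `fl 0 v (γ fl 0 u (fr(n e1)) k)` (equivariance FLBN, CNVN (3) with `u ≤ 1`, `x = v`); and `fl 0 v (γ fr(n e1) k)` (CNVN (2), `C e1 ≤ 1/8`). `Bo (1/8)` gives distance `≤ 1` (BOXN (8)); `C3 ρ1^(1/2) ≤ 1/8`. -/
def TRSN_stmt : Prop := ∀ (Γ : Subgroup SL(2, ℝ)) (k : ℝ) (B : ℕ → ℝ), QU.SurfaceGroup Γ → 0 < k → ∃ C : ℝ, 1 ≤ C ∧ ∀ C2 : ℝ, 1 ≤ C2 → ∃ ρ10 : ℝ, 0 < ρ10 ∧ ρ10 ≤ 1 / 8 ∧ ∀ (D : Dyn) (ρ1 t r e1 Λ : ℝ) (N : ℕ) (w w' : ℕ → SL(2, ℝ) × ℝ),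
  OKN Γ k B D → 1 ≤ N → 0 < r → r ≤ ρ1 → ρ1 ≤ ρ10 → 1 ≤ t → 0 < e1 → e1 ≤ 1 / C → 0 < Λ → Λ ≤ t → Real.exp (C * Λ) ≤ ρ1 ^ (-(1 / 2) : ℝ) → JP D t r N w → JP D t r N w' →
    ∀ (i : ℕ) (v : ℝ) (a : Γ × ℕ × ℕ), 0 ≤ v → v ≤ Λ → i * Λ + v ≤ N * t → Stt D t (C2 * ρ1) e1 Λ N w w' i a →
      dist (frZ D t w' (i * Λ + v) • I : ℍ) (D.fl 0 v ((a.1 : SL(2, ℝ)) * frZ D t w (a.2.1 * e1) * kM (a.2.2 * (Real.pi / 2))) • I) ≤ 4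

/-- **Row RCLN** (two chains with the same state stay close; short-medium; from CNVN, FLBN, BOXN). `C` = the constant of CNVN. Let `s'`, `s''` be the times of the two states, `⌊s'/e1⌋ = ⌊s''/e1⌋`, so `|s' - s''| < e1`. First `s' ≤ s''`, `u = s'' - s'` (the other case by exchanging `w'`, `w''` and taking the inverse, BOXN (4)).
`fr'(iΛ + v)`, `fl 0 v (fr'(iΛ))` (CNVN (3), `x = 0`), `fl 0 v (γ fr(s') k)` (CNVN (1)), `fl 0 v (γ fl 0 u (fr(s')) k)` (CNVN (2) with `u ≤ e1`), `fl 0 v (γ fr(s' + u) k)` (equivariance FLBN; CNVN (3), `u ≤ 1`, `x = v`), `fl 0 v (fr''(iΛ))` (CNVN (1)), `fr''(iΛ + v)` (CNVN (3)): the quotients of neighbours are in `Bo (C3 ρ1^(1/2))` or `Bo (C e1)`,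
the total is in `Bo (10 (5 C3 ρ1^(1/2) + C e1))` (BOXN (3), all radii `≤ 1/100`); choose `e1` and then `ρ10`. -/
def RCLN_stmt : Prop := ∀ (Γ : Subgroup SL(2, ℝ)) (k : ℝ) (B : ℕ → ℝ), QU.SurfaceGroup Γ → 0 < k → ∃ C : ℝ, 1 ≤ C ∧ ∀ eps : ℝ, 0 < eps → ∃ e10 : ℝ, 0 < e10 ∧ e10 ≤ 1 ∧ ∀ C2 : ℝ, 1 ≤ C2 → ∃ ρ10 : ℝ, 0 < ρ10 ∧ ρ10 ≤ 1 / 8 ∧
  ∀ (D : Dyn) (ρ1 t r e1 Λ : ℝ) (N : ℕ) (w w' w'' : ℕ → SL(2, ℝ) × ℝ), OKN Γ k B D → 1 ≤ N → 0 < r → r ≤ ρ1 → ρ1 ≤ ρ10 → 1 ≤ t → 0 < e1 → e1 ≤ e10 → 0 < Λ → Λ ≤ t → Real.exp (C * Λ) ≤ ρ1 ^ (-(1 / 2) : ℝ) → JP D t r N w → JP D t r N w' → JP D t r N w'' →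
    ∀ (i : ℕ) (v : ℝ) (a : Γ × ℕ × ℕ), 0 ≤ v → v ≤ Λ → i * Λ + v ≤ N * t → Stt D t (C2 * ρ1) e1 Λ N w w' i a → Stt D t (C2 * ρ1) e1 Λ N w w'' i a →
      (frZ D t w' (i * Λ + v))⁻¹ * frZ D t w'' (i * Λ + v) ∈ Bo eps

/-- **Row CLSN** (the classes of undetected chains; medium; ADAPTATION of `CNTV_main`, `CNTV_proof` in helper54/VQ/CNTV.lean; from PIVN, TRSN, RCLN, PTHN, FLBN, RPQ.INJ, RS: GLC). `C` = the maximum of the constants of TRSN, RCLN; `C2` = the constant of PIVN; `e1 = min e10 (1/C)`; `Λ = log (1/ρ1)/(2 C)`, so `e^(CΛ) = ρ1^(-1/2)`, `Λ ≤ t`; `T = N t`, `S = ⌈T/Λ⌉`.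
`X` = the set of the chains `w'` of the statement. For `w' ∈ X`: PIVN at the times `iΛ`, `i < S`, gives a state `st w' i` (`Stt`; choose it), and `en w' = γ` with `w' N = γ • y`. TRSN with `v = Λ` at `i` and `v = 0` at `i + 1` (`(g * kM θ) • I = g • I`, `fl 0 0 = id`): `dist (fl 0 Λ (η_i fr(n_i e1) k_i) • I) (η_(i+1) fr(n_(i+1) e1) • I) ≤ 8`;
at `i = 0`, `v = 0`: `dist (x.1 • I) (η_0 fr(n_0 e1) • I) ≤ 4`; at the end, `i = S - 1`, `v = T - (S-1)Λ`: `dist (γ y.1 • I) (fl 0 v (η fr(n e1) k) • I) ≤ 4` (`frZ D t w' (N t) = (w' N).1`). So PTHN applies with `q = (⌊T/e1⌋ + 1) · 4 n(8)`, `n = n(8)` (INJ), as in `CNTV_next`; `M = q^S n ≤ (C' (T + 1))^(C' T/log (1/ρ1) + 3)` as in `CNTV_proof`, `C' ≥ 8 n(8)/e1`.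
If two chains are in the same class: the ends are `γ • y` with the same `γ`; for `0 ≤ s < T` put `i = ⌊s/Λ⌋ < S`, `v = s - iΛ ≤ Λ`: RCLN. (`C'` is also at least the constant of PIVN.) -/
def CLSN_stmt : Prop := ∀ (Γ : Subgroup SL(2, ℝ)) (κ : ℝ → ℝ) (k : ℝ) (B : ℕ → ℝ), QU.SurfaceGroup Γ → 0 < k → ∀ eps : ℝ, 0 < eps → ∃ C' ρ10 : ℝ, 1 ≤ C' ∧ 0 < ρ10 ∧ ρ10 ≤ 1 / 8 ∧ ∀ (C0 ρ ρ1 r K t : ℝ) (J : ℕ) (p : Fin J → ℍ) (χ : Fin J → ℍ → ℝ) (N nc : ℕ) (D : Dyn) (x y : SL(2, ℝ) × ℝ) (w : ℕ → SL(2, ℝ) × ℝ),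
  OKN Γ k B D → 1 ≤ N → 0 < ρ → 0 < r → r ≤ ρ1 → ρ1 ≤ ρ10 → 1 ≤ t → Real.log (1 / ρ1) ≤ t → C' / ρ ≤ |K| → nc + C' * (N * t + 1) / ρ1 ≤ ρ1 / (C' * ρ) → Net Γ κ ρ C0 J p χ → JP D t r N w →
    ∃ (M : ℕ) (cl : (ℕ → SL(2, ℝ) × ℝ) → ℕ), (M : ℝ) ≤ (C' * (N * t + 1)) ^ (C' * N * t / Real.log (1 / ρ1) + 3) ∧
      ∀ w' : ℕ → SL(2, ℝ) × ℝ, w' 0 = x → (∃ γ : Γ, w' N = γ • y) → JP D t r N w' → UndV D χ K t N nc w w' → cl w' < M ∧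
        ∀ w'' : ℕ → SL(2, ℝ) × ℝ, w'' 0 = x → (∃ γ : Γ, w'' N = γ • y) → JP D t r N w'' → UndV D χ K t N nc w w'' → cl w'' = cl w' →
          w'' N = w' N ∧ ∀ s : ℝ, 0 ≤ s → s < N * t → (frZ D t w' s)⁻¹ * frZ D t w'' s ∈ Bo eps

/-! ## The end

**Row UND** (the statement `UND_stmt` is in helper11/VN/Spec3b.lean; medium; from CLSN, VBXN, SUMN, I6N, RIGN, VQ.PARV): `theorem UND_proof (hCLSN : CLSN_stmt) (hVBXN : VBXN_stmt) (hSUMN : SUMN_stmt) (hI6N : I6N_stmt) (hRIGN : RIGN_stmt) (hPARV : VQ.PARV_stmt) : UND_stmt`. `eps` = the one of RIGN for `Γ, k, B`; CLSN for this `eps` gives `C', ρ10`; `C = 4 C(RIGN) + C(I6N) + C' + C(VBXN) + 20` (`Adm C A → Adm C₁ A` for `C₁ ≤ C`). Given `A, N, M1`: PARV for `(N, M1, C', ρ10, c = A.m * A.e3)` gives `a₀, R0`; `a = a₀ + 1`.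
Given `R, ρ, K, ..`: `t = A.tu R`, `ρ1 = (log R)^(-a₀)`, `r = R^(-1/5)`; PARV is applied to `C' ρ/32` in the place of `ρ` (`C' ρ/32 ≤ (log R)^(-(2a₀+2))` because `C'/32 ≤ (log R)²`), its `nc` satisfies `nc + C' (N' t + 1)/ρ1 ≤ ρ1/(C' ρ)`. I6N: `Ch D A R N' w → JP D t r N' w` (energies in `Wi 2 R`, `2 R^(-1/4) ≤ R^(-1/5)`).
CLSN for `N'`: `M ≤ R^(1/8)` and `cl`. SUMN with `ι = Γ`, `A γ` = the set of the statement, `cl γ v' = cl (vz x (γ•y) v')`: `vz x z v' 0 = x`, `vz x z v' N' = z`; equal classes have equal ends `γ•y = γ'•y`, so `γ = γ'`. The volume of one class: empty, or it contains `v₀`; then every other `v` of the class satisfies `Nb r' (vz x (γ•y) v₀ (i+1)) (v i)`, `r' = R^(-1/2 + C(RIGN) z2)`, by RIGN (`R0` = the maximum over `N' ≤ N`),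
so its measure is `≤ (C r'^4)^(N'-1) = (C(VBXN) R^(-2 + 4 C(RIGN) z2))^(N'-1) ≤ (R^(-2 + C z2))^(N'-1)` (VBXN; `r' ≤ 1/4` as `C(RIGN) z2 ≤ 1/4`; `C(VBXN) ≤ R^(z2)` for large `R`, `z2 > 0`). -/

end

end Pool.Agent.VN
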