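import Pool.Agent.helper49.VN.PIVN
import Pool.Agent.helper21.VN.CNVN
import Pool.Agent.helper79.VN.TRSN
import Pool.Agent.helper48.VN.RCLN
import Pool.Agent.helper89.VN.CLSN
import Pool.Agent.helper33.VN.BOXN
import Pool.Agent.helper51.VN.PTHN
import Pool.Agent.helper34.VN.SUMN
import Pool.Agent.helper85.VN.VBXN
import Pool.Agent.helper15.VN.UND
import Pool.Agent.helper3.VN.FSTN
import Pool.Agent.helper21.VQ.VBO
import Pool.Agent.helper15.VQ.PARV

/-!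
# Project VN: the block UND (detection with finer classes) is closed

`UND_of`: `UND_stmt` from FLBN, FLGN (block FL), RPQ: TPT, INJ, RS: GLC, GMG, and I6N, RIGN (block 4a).
-/

set_option autoImplicit false

namespace Pool.Agent.VN

open Pool.Agent.RS Pool.Agent.VQ

theorem CNVN_of (hFLBN : FLBN_stmt) (hFLGN : FLGN_stmt) : CNVN_stmt := CNVN_proof hFLBN hFLGN FSTN_proof BOXN_proof

theorem CLSN_of (hFLBN : FLBN_stmt) (hFLGN : FLGN_stmt) (hTPT : RPQ.TPT_stmt) (hINJ : RPQ.INJ_stmt) (hGLC : GLC_stmt) : CLSN_stmt :=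
  CLSN_proof (PIVN_proof FSTN_proof hFLBN hTPT hINJ) (TRSN_proof (CNVN_of hFLBN hFLGN) hFLBN BOXN_proof) (RCLN_proof (CNVN_of hFLBN hFLGN) hFLBN BOXN_proof) PTHN_proof hINJ hGLC

theorem UND_of (hFLBN : FLBN_stmt) (hFLGN : FLGN_stmt) (hTPT : RPQ.TPT_stmt) (hINJ : RPQ.INJ_stmt) (hGLC : GLC_stmt) (hGMG : GMG_stmt) (hI6N : I6N_stmt) (hRIGN : RIGN_stmt) : UND_stmt :=
  UND_proof (CLSN_of hFLBN hFLGN hTPT hINJ hGLC) (VBXN_proof VBO_proof hGMG) SUMN_proof hI6N hRIGN PARV_proof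

end Pool.Agent.VN
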